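import Pool.Agent.KS6_56.Tri.PlaneLemmas

/-!
Among all planar lattices, the sections of the square lattice span asymptotically the fewest
distinct triangles.
-/

open Pool.Agent.KS6_56.Tri Filter Topology

namespace Pool.Agent.Results.MP_047cd2_co.SquareLatticeFewest

/-- the ratio `T(L_{a,b}(n)) / n²` -/
noncomputable def ratio (a b : Plane) (n : ℕ) : ℝ :=
  (numTriangles (latticeSection a b n) : ℝ) / (n : ℝ) ^ 2

theorem li_std : LinearIndependent ℝ ![e₁, e₂] := by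
  rw [LinearIndependent.pair_iff]
  intro s t h
  have h0 := congrFun (congrArg WithLp.ofLp h) 0
  have h1 := congrFun (congrArg WithLp.ofLp h) 1
  simp [e₁, e₂] at h0 h1
  exact ⟨h0, h1⟩

theorem form_std : formOf e₁ e₂ = sqForm := by
  have h1 : ‖e₁‖ ^ 2 = 1 := by
    rw [EuclideanSpace.norm_sq_eq]; simp [e₁]
  have h2 : ‖e₂‖ ^ 2 = 1 := by
    rw [EuclideanSpace.norm_sq_eq]; simp [e₂]
  have h3 : inner ℝ e₁ e₂ = 0 := by
    simp [e₁, e₂, PiLp.inner_apply]
  rw [formOf, h1, h2, h3, sqForm]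
  simp

/-- the case of a square lattice -/
theorem eq_of_square {a b : Plane} (h : LinearIndependent ℝ ![a, b]) (h1 : ‖a‖ = ‖b‖)
    (h2 : inner ℝ a b = 0) (n : ℕ) :
    numTriangles (latticeSection a b n) = numTriangles (latticeSection e₁ e₂ n) := by
  rw [numTriangles_eq h, numTriangles_eq li_std, form_std]
  have ha : ‖a‖ ^ 2 ≠ 0 := (formOf_pos h).1.ne'
  rw [← numS_smul sqForm ha]
  congr 1
  rw [formOf, sqForm, h2, ← h1]
  simp

theorem upper (ε : ℝ) (hε : 0 < ε) : ∀ᶠ n : ℕ in atTop, ratio e₁ e₂ n ≤ 3 / 16 + ε := by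
  have hx : Tendsto (fun n : ℕ => √(n : ℝ)) atTop atTop :=
    Real.tendsto_sqrt_atTop.comp tendsto_natCast_atTop_atTop
  filter_upwards [hx.eventually_ge_atTop (131 / ε), hx.eventually_ge_atTop 1] with n h1 h2
  rw [ratio, numTriangles_eq li_std, form_std]
  set x := √(n : ℝ) with hxd
  have hn : (n : ℝ) ^ 2 = x ^ 4 := by
    have : x ^ 2 = n := Real.sq_sqrt (Nat.cast_nonneg n)
    rw [← this]; ring
  have hN : (⌈x⌉₊ : ℝ) ≤ x + 1 := (Nat.ceil_lt_add_one (by linarith)).le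
  have hN0 : (0 : ℝ) ≤ ⌈x⌉₊ := Nat.cast_nonneg _
  have h3 := numS_sq_le ⌈x⌉₊
  have h4 : (⌈x⌉₊ : ℝ) ^ 4 ≤ (x + 1) ^ 4 := by gcongr
  have h5 : (⌈x⌉₊ : ℝ) ^ 3 ≤ (x + 1) ^ 3 := by gcongr
  have h6 : (x + 1) ^ 3 ≤ 8 * x ^ 3 := by
    have : (x + 1) ^ 3 ≤ (2 * x) ^ 3 := by gcongr; linarith
    linarith [(by ring : (2 * x) ^ 3 = 8 * x ^ 3)]
  have h7 : (x + 1) ^ 4 ≤ x ^ 4 + 15 * x ^ 3 := by
    have e1 : x ^ 2 ≤ x ^ 3 := by
      have := mul_le_mul_of_nonneg_left h2 (sq_nonneg x)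
      linarith [(by ring : x ^ 2 * x = x ^ 3)]
    have e2 : x ≤ x ^ 2 := by nlinarith
    have e3 : (x + 1) ^ 4 = x ^ 4 + 4 * x ^ 3 + 6 * x ^ 2 + 4 * x + 1 := by ring
    rw [e3]; linarith
  have h8 : 131 ≤ ε * x := by
    rwa [div_le_iff₀ hε, mul_comm] at h1
  have h9 : 131 * x ^ 3 ≤ ε * x ^ 4 := by
    have : 131 * x ^ 3 ≤ (ε * x) * x ^ 3 := by gcongr
    linarith [(by ring : (ε * x) * x ^ 3 = ε * x ^ 4)]
  have hx4 : 0 < x ^ 4 := by positivity
  rw [hn, div_le_iff₀ hx4]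
  have h10 : (0 : ℝ) ≤ x ^ 3 := by positivity
  linarith

theorem lower {a b : Plane} (h : LinearIndependent ℝ ![a, b])
    (hns : ¬ (‖a‖ = ‖b‖ ∧ inner ℝ a b = 0)) (ε : ℝ) (hε : 0 < ε) :
    ∀ᶠ n : ℕ in atTop, 3 / 16 - ε ≤ ratio a b n := by
  rcases le_or_gt (3 / 16) ε with hε' | hε'
  · filter_upwards with n
    have : 0 ≤ ratio a b n := by rw [ratio]; positivity
    linarith
  have hx : Tendsto (fun n : ℕ => √(n : ℝ)) atTop atTop :=
    Real.tendsto_sqrt_atTop.comp tendsto_natCast_atTop_atTop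
  have hc : Tendsto (fun n : ℕ => ⌈√(n : ℝ)⌉₊) atTop atTop := tendsto_nat_ceil_atTop.comp hx
  have hq : ¬ ((formOf a b).A = (formOf a b).C ∧ (formOf a b).B = 0) := by
    rintro ⟨h1, h2⟩
    apply hns
    simp only [formOf] at h1 h2
    refine ⟨(sq_eq_sq₀ (norm_nonneg _) (norm_nonneg _)).1 h1, ?_⟩
    linarith
  have hev := hc.eventually (numS_lower (formOf_pos h) hq ε hε)
  filter_upwards [hev, hx.eventually_ge_atTop 1] with n h1 h2
  rw [ratio, numTriangles_eq h]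
  set x := √(n : ℝ) with hxd
  have hn : (n : ℝ) ^ 2 = x ^ 4 := by
    have : x ^ 2 = n := Real.sq_sqrt (Nat.cast_nonneg n)
    rw [← this]; ring
  have hN : x ≤ (⌈x⌉₊ : ℝ) := Nat.le_ceil _
  have h4 : x ^ 4 ≤ (⌈x⌉₊ : ℝ) ^ 4 := by gcongr
  have hx4 : 0 < x ^ 4 := by positivity
  rw [hn, le_div_iff₀ hx4]
  refine le_trans ?_ h1
  have : 0 ≤ 3 / 16 - ε := by linarith
  gcongr

/-- an explicit separation: the square lattice has upper limit at most `3 / 16` -/
theorem limsup_square :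
    limsup (fun n : ℕ => (ratio e₁ e₂ n : EReal)) atTop ≤ ((3 / 16 : ℝ) : EReal) := by
  rw [← EReal.le_of_forall_lt_iff_le]
  intro z hz
  have hz' : (3 / 16 : ℝ) < z := by exact_mod_cast hz
  apply limsup_le_of_le
  · isBoundedDefault
  · filter_upwards [upper (z - 3 / 16) (by linarith)] with n hn
    have : ratio e₁ e₂ n ≤ z := by linarith
    exact_mod_cast this

/-- and all the lattices which are not square have lower limit at least `3 / 16` -/
theorem le_liminf {a b : Plane} (h : LinearIndependent ℝ ![a, b])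
    (hns : ¬ (‖a‖ = ‖b‖ ∧ inner ℝ a b = 0)) :
    ((3 / 16 : ℝ) : EReal) ≤ liminf (fun n : ℕ => (ratio a b n : EReal)) atTop := by
  rw [← EReal.ge_of_forall_gt_iff_ge]
  intro z hz
  have hz' : z < (3 / 16 : ℝ) := by exact_mod_cast hz
  apply le_liminf_of_le
  · isBoundedDefault
  · filter_upwards [lower h hns (3 / 16 - z) (by linarith)] with n hn
    have : z ≤ ratio a b n := by linarith
    exact_mod_cast this

/-- for all linearly independent `a`, `b`, the lower limit of `T(L_{a,b}(n)) / n²` is at least that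
of the square lattice -/
theorem result (a b : Plane) (h : LinearIndependent ℝ ![a, b]) :
    liminf (fun n : ℕ => (ratio e₁ e₂ n : EReal)) atTop ≤
      liminf (fun n : ℕ => (ratio a b n : EReal)) atTop := by
  by_cases hs : ‖a‖ = ‖b‖ ∧ inner ℝ a b = 0
  · have : ratio a b = ratio e₁ e₂ := by
      funext n
      rw [ratio, ratio, eq_of_square h hs.1 hs.2]
    rw [this]
  · have h1 : liminf (fun n : ℕ => (ratio e₁ e₂ n : EReal)) atTop ≤
        limsup (fun n : ℕ => (ratio e₁ e₂ n : EReal)) atTop := liminf_le_limsup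
    exact (h1.trans limsup_square).trans (le_liminf h hs)

end Pool.Agent.Results.MP_047cd2_co.SquareLatticeFewest
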